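import Mathlib

set_option autoImplicit false

open Filter Topology Set
open scoped Nat

namespace Pool.Agent.Lib.MP_f30c32_an

/-- the coefficients `1/(m! Γ(m+μ+1))`. -/
noncomputable def cf (μ : ℝ) (m : ℕ) : ℝ := 1 / ((m ! : ℝ) * Real.Gamma ((m : ℝ) + μ + 1))

/-- the entire function `∑ (-1)^m y^m/(m! Γ(m+μ+1))`. -/
noncomputable def G (μ y : ℝ) : ℝ := ∑' m : ℕ, (-1) ^ m * cf μ m * y ^ m

theorem arg_pos {μ : ℝ} (hμ : -1 < μ) (m : ℕ) : 0 < (m : ℝ) + μ + 1 := by
  have : (0 : ℝ) ≤ m := by positivity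
  linarith

theorem cf_pos {μ : ℝ} (hμ : -1 < μ) (m : ℕ) : 0 < cf μ m := by
  unfold cf
  have := Real.Gamma_pos_of_pos (arg_pos hμ m)
  positivity

theorem cf_succ {μ : ℝ} (hμ : -1 < μ) (m : ℕ) :
    cf μ (m + 1) = cf μ m / (((m : ℝ) + 1) * ((m : ℝ) + μ + 1)) := by
  unfold cf
  have h1 := arg_pos hμ m
  have h2 : (((m + 1 : ℕ) : ℝ) + μ + 1) = ((m : ℝ) + μ + 1) + 1 := by push_cast; ring
  rw [h2, Real.Gamma_add_one h1.ne', Nat.factorial_succ]
  push_cast
  have h3 := Real.Gamma_pos_of_pos h1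
  have h4 : (0 : ℝ) < (m ! : ℝ) := by positivity
  field_simp

theorem cf_shift {μ : ℝ} (m : ℕ) : ((m : ℝ) + 1) * cf μ (m + 1) = cf (μ + 1) m := by
  unfold cf
  have h2 : (((m + 1 : ℕ) : ℝ) + μ + 1) = ((m : ℝ) + (μ + 1) + 1) := by push_cast; ring
  rw [h2, Nat.factorial_succ]
  push_cast
  have h4 : (m ! : ℝ) ≠ 0 := by positivity
  have h5 : (m : ℝ) + 1 ≠ 0 := by positivity
  field_simp

theorem cf_pred {ν : ℝ} (hν : 0 < ν) (m : ℕ) : cf (ν - 1) m = ((m : ℝ) + ν) * cf ν m := by
  unfold cf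
  have h1 : 0 < (m : ℝ) + ν := by positivity
  have h2 : (m : ℝ) + (ν - 1) + 1 = (m : ℝ) + ν := by ring
  rw [h2, Real.Gamma_add_one h1.ne']
  have h3 := Real.Gamma_pos_of_pos h1
  have h4 : (0 : ℝ) < (m ! : ℝ) := by positivity
  field_simp

theorem summable_abs {μ : ℝ} (hμ : -1 < μ) (r : ℝ) : Summable (fun m => cf μ m * |r| ^ m) := by
  rcases eq_or_ne r 0 with h | h
  · subst h
    apply summable_of_finite_support
    refine (Set.finite_singleton 0).subset ?_
    intro m hm
    by_contra hne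
    apply hm
    simp only [Set.mem_singleton_iff] at hne
    simp [hne]
  · have hr : 0 < |r| := abs_pos.2 h
    refine summable_of_ratio_test_tendsto_lt_one (l := 0) zero_lt_one ?_ ?_
    · exact Eventually.of_forall (fun m => (mul_pos (cf_pos hμ m) (pow_pos hr m)).ne')
    · have hratio : ∀ m : ℕ, ‖cf μ (m + 1) * |r| ^ (m + 1)‖ / ‖cf μ m * |r| ^ m‖ =
          |r| / (((m : ℝ) + 1) * ((m : ℝ) + μ + 1)) := by
        intro m
        have h1 := cf_pos hμ m
        have h2 := arg_pos hμ m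
        have h3 : 0 < |r| ^ m := pow_pos hr m
        rw [Real.norm_of_nonneg (mul_pos (cf_pos hμ (m + 1)) (pow_pos hr _)).le,
          Real.norm_of_nonneg (mul_pos h1 h3).le, cf_succ hμ, pow_succ]
        have h4 : (0 : ℝ) < (m : ℝ) + 1 := by positivity
        field_simp
      simp only [hratio]
      apply Tendsto.const_div_atTop
      have h1 : Tendsto (fun m : ℕ => (m : ℝ) + 1) atTop atTop :=
        tendsto_atTop_add_const_right _ _ tendsto_natCast_atTop_atTop
      have h2 : Tendsto (fun m : ℕ => (m : ℝ) + μ + 1) atTop atTop :=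
        tendsto_atTop_add_const_right _ _
          (tendsto_atTop_add_const_right _ _ tendsto_natCast_atTop_atTop)
      exact h1.atTop_mul_atTop₀ h2

theorem summable_G {μ : ℝ} (hμ : -1 < μ) (y : ℝ) :
    Summable (fun m => (-1) ^ m * cf μ m * y ^ m) := by
  refine Summable.of_norm_bounded (summable_abs hμ y) ?_
  intro m
  rw [Real.norm_eq_abs, abs_mul, abs_mul, abs_pow, abs_neg, abs_one, one_pow, one_mul, abs_pow,
    abs_of_pos (cf_pos hμ m)]

theorem hasDerivAt_G {μ : ℝ} (hμ : -1 < μ) (y : ℝ) : HasDerivAt (G μ) (-G (μ + 1) y) y := by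
  have hμ1 : -1 < μ + 1 := by linarith
  set R : ℝ := |y| + 1 with hR
  have hR0 : 0 < R := by positivity
  have hu : Summable (fun m : ℕ => cf μ m * ((m : ℝ) * R ^ (m - 1))) := by
    rw [← summable_nat_add_iff 1]
    have h := summable_abs hμ1 R
    rw [abs_of_pos hR0] at h
    refine h.congr ?_
    intro m
    rw [← cf_shift]
    simp only [Nat.add_sub_cancel]
    push_cast
    ring
  have hd := hasDerivAt_tsum_of_isPreconnected (𝕜 := ℝ) (F := ℝ)
    (g := fun m z => (-1) ^ m * cf μ m * z ^ m)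
    (g' := fun m z => (-1) ^ m * cf μ m * ((m : ℝ) * z ^ (m - 1)))
    (t := Metric.ball 0 R) (y₀ := y) (y := y) hu Metric.isOpen_ball
    (convex_ball _ _).isPreconnected ?_ ?_ ?_ (summable_G hμ y) ?_
  · have e : (∑' m : ℕ, (-1) ^ m * cf μ m * ((m : ℝ) * y ^ (m - 1))) = -G (μ + 1) y := by
      have hs : Summable (fun m : ℕ => (-1) ^ m * cf μ m * ((m : ℝ) * y ^ (m - 1))) := by
        refine Summable.of_norm_bounded hu ?_
        intro m
        rw [Real.norm_eq_abs, abs_mul, abs_mul, abs_pow, abs_neg, abs_one, one_pow, one_mul,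
          abs_of_pos (cf_pos hμ m), abs_mul, abs_pow, Nat.abs_cast]
        have := (cf_pos hμ m).le
        gcongr
        linarith
      rw [hs.tsum_eq_zero_add]
      simp only [Nat.cast_zero, zero_mul, mul_zero, zero_add]
      unfold G
      rw [← tsum_neg]
      apply tsum_congr
      intro m
      rw [← cf_shift]
      simp only [Nat.add_sub_cancel]
      push_cast
      ring
    rw [← e]
    exact hd
  · intro m z _
    exact (hasDerivAt_pow m z).const_mul _
  · intro m z hz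
    rw [Metric.mem_ball, dist_zero_right, Real.norm_eq_abs] at hz
    rw [Real.norm_eq_abs, abs_mul, abs_mul, abs_pow, abs_neg, abs_one, one_pow, one_mul,
      abs_of_pos (cf_pos hμ m), abs_mul, abs_pow, Nat.abs_cast]
    have := (cf_pos hμ m).le
    gcongr
  · rw [Metric.mem_ball, dist_zero_right, Real.norm_eq_abs]
    linarith
  · rw [Metric.mem_ball, dist_zero_right, Real.norm_eq_abs]
    linarith

theorem G_recurrence {ν : ℝ} (hν : 0 < ν) (y : ℝ) :
    G (ν - 1) y = ν * G ν y - y * G (ν + 1) y := by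
  have h1 : -1 < ν - 1 := by linarith
  have h0 : -1 < ν := by linarith
  have h2 : -1 < ν + 1 := by linarith
  have hsum : Summable (fun m : ℕ => (-1) ^ m * ((m : ℝ) * cf ν m) * y ^ m) := by
    have hA := (summable_G h1 y).sub ((summable_G h0 y).mul_left ν)
    refine hA.congr ?_
    intro m
    rw [cf_pred hν]
    ring
  have e1 : G (ν - 1) y = ν * G ν y + ∑' m : ℕ, (-1) ^ m * ((m : ℝ) * cf ν m) * y ^ m := by
    unfold G
    rw [← tsum_mul_left, ← ((summable_G h0 y).mul_left ν).tsum_add hsum]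
    apply tsum_congr
    intro m
    rw [cf_pred hν]
    ring
  have e2 : ∑' m : ℕ, (-1) ^ m * ((m : ℝ) * cf ν m) * y ^ m = -(y * G (ν + 1) y) := by
    rw [hsum.tsum_eq_zero_add]
    simp only [Nat.cast_zero, zero_mul, mul_zero, zero_add]
    unfold G
    rw [← tsum_mul_left, ← tsum_neg]
    apply tsum_congr
    intro m
    rw [← cf_shift]
    push_cast
    ring
  rw [e1, e2]
  ring

theorem G_zero (μ : ℝ) : G μ 0 = cf μ 0 := by
  unfold G
  rw [tsum_eq_single 0]
  · simp
  · intro m hm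
    simp [hm]

end Pool.Agent.Lib.MP_f30c32_an
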