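import Mathlib

set_option autoImplicit false

open scoped Nat

namespace Pool.Agent.Lib.MP_f30c32_an

/-- The Bessel function of the first kind of real order `ν`, for `x > 0`:
`J_ν(x) = ∑_{m ≥ 0} (-1)^m / (m! Γ(m+ν+1)) (x/2)^(2m+ν)` (real powers). -/
noncomputable def besselJ (ν x : ℝ) : ℝ :=
  ∑' m : ℕ, (-1) ^ m / ((m ! : ℝ) * Real.Gamma ((m : ℝ) + ν + 1)) * (x / 2) ^ (2 * (m : ℝ) + ν)

/-- The Turan determinant `Δ_ν = J_ν² - J_{ν-1} J_{ν+1}`. -/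
noncomputable def turanDelta (ν x : ℝ) : ℝ :=
  besselJ ν x ^ 2 - besselJ (ν - 1) x * besselJ (ν + 1) x

/-- The Turan ratio `Φ_ν = Δ_ν / J_ν²`. -/
noncomputable def turanRatio (ν x : ℝ) : ℝ := turanDelta ν x / besselJ ν x ^ 2

end Pool.Agent.Lib.MP_f30c32_an
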