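import Mathlib
import Pool.Agent.Lib.MP_f30c32_an.Defs
import Pool.Agent.Lib.MP_f30c32_an.Bessel

section

set_option autoImplicit false

open Filter Topology Set
open scoped Nat

namespace Pool.Agent.Lib.MP_f30c32_an

theorem besselJ_eq (μ : ℝ) {x : ℝ} (hx : 0 < x) :
    besselJ μ x = (x / 2) ^ μ * G μ (x ^ 2 / 4) := by
  unfold besselJ G
  rw [← tsum_mul_left]
  apply tsum_congr
  intro m
  have h2 : 0 < x / 2 := by positivity
  have e1 : (x / 2) ^ (2 * (m : ℝ) + μ) = (x / 2) ^ μ * (x ^ 2 / 4) ^ m := by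
    rw [Real.rpow_add h2, mul_comm]
    congr 1
    have : (2 * (m : ℝ)) = ((2 * m : ℕ) : ℝ) := by push_cast; ring
    rw [this, Real.rpow_natCast, pow_mul]
    congr 1
    ring
  rw [e1]
  unfold cf
  ring

theorem hasDerivAt_besselJ {μ : ℝ} (hμ : -1 < μ) {x : ℝ} (hx : 0 < x) :
    HasDerivAt (besselJ μ) (μ / x * besselJ μ x - besselJ (μ + 1) x) x := by
  have hloc : besselJ μ =ᶠ[𝓝 x] fun x => (x / 2) ^ μ * G μ (x ^ 2 / 4) := by
    filter_upwards [lt_mem_nhds hx] with z hz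
    exact besselJ_eq μ hz
  have h2 : 0 < x / 2 := by positivity
  have hd1 : HasDerivAt (fun x : ℝ => x / 2) (1 / 2) x := (hasDerivAt_id x).div_const 2
  have hd2 : HasDerivAt (fun x : ℝ => (x / 2) ^ μ) (1 / 2 * μ * (x / 2) ^ (μ - 1)) x :=
    hd1.rpow_const (Or.inl h2.ne')
  have hd3 : HasDerivAt (fun x : ℝ => x ^ 2 / 4) (x / 2) x := by
    refine ((hasDerivAt_pow 2 x).div_const 4).congr_deriv ?_
    norm_num
    ring
  have hd4 : HasDerivAt (fun x : ℝ => G μ (x ^ 2 / 4)) (-G (μ + 1) (x ^ 2 / 4) * (x / 2)) x :=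
    HasDerivAt.comp (h₂ := G μ) (h := fun x : ℝ => x ^ 2 / 4) x (hasDerivAt_G hμ (x ^ 2 / 4)) hd3
  refine HasDerivAt.congr_of_eventuallyEq ?_ hloc
  refine (hd2.mul hd4).congr_deriv ?_
  rw [besselJ_eq μ hx, besselJ_eq (μ + 1) hx, Real.rpow_add_one h2.ne', Real.rpow_sub_one h2.ne']
  field_simp
  ring

theorem besselJ_recurrence {ν : ℝ} (hν : 0 < ν) {x : ℝ} (hx : 0 < x) :
    besselJ (ν - 1) x = 2 * ν / x * besselJ ν x - besselJ (ν + 1) x := by
  have h2 : 0 < x / 2 := by positivity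
  rw [besselJ_eq _ hx, besselJ_eq _ hx, besselJ_eq _ hx, G_recurrence hν,
    Real.rpow_add_one h2.ne', Real.rpow_sub_one h2.ne']
  field_simp
  ring

/-- derivative of `J_{ν+1}`. -/
theorem hasDerivAt_besselJ_succ {ν : ℝ} (hν : 0 < ν) {x : ℝ} (hx : 0 < x) :
    HasDerivAt (besselJ (ν + 1)) (besselJ ν x - (ν + 1) / x * besselJ (ν + 1) x) x := by
  have h1 := hasDerivAt_besselJ (μ := ν + 1) (by linarith) hx
  have h2 := besselJ_recurrence (ν := ν + 1) (by linarith) hx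
  rw [add_sub_cancel_right] at h2
  refine h1.congr_deriv ?_
  rw [h2]
  ring

/-- `x² Δ_ν(x)`. -/
noncomputable def MM (ν x : ℝ) : ℝ := x ^ 2 * turanDelta ν x

theorem turanDelta_eq {ν : ℝ} (hν : 0 < ν) {x : ℝ} (hx : 0 < x) :
    turanDelta ν x = besselJ ν x ^ 2 - 2 * ν / x * besselJ ν x * besselJ (ν + 1) x
      + besselJ (ν + 1) x ^ 2 := by
  unfold turanDelta
  rw [besselJ_recurrence hν hx]
  ring

theorem MM_eq {ν : ℝ} (hν : 0 < ν) {x : ℝ} (hx : 0 < x) :
    MM ν x = x ^ 2 * besselJ ν x ^ 2 - 2 * ν * x * besselJ ν x * besselJ (ν + 1) x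
      + x ^ 2 * besselJ (ν + 1) x ^ 2 := by
  unfold MM
  rw [turanDelta_eq hν hx]
  field_simp

theorem hasDerivAt_MM {ν : ℝ} (hν : 0 < ν) {x : ℝ} (hx : 0 < x) :
    HasDerivAt (MM ν) (2 * x * besselJ ν x ^ 2) x := by
  have hloc : MM ν =ᶠ[𝓝 x] fun x => x ^ 2 * besselJ ν x ^ 2 -
      2 * ν * x * besselJ ν x * besselJ (ν + 1) x + x ^ 2 * besselJ (ν + 1) x ^ 2 := by
    filter_upwards [lt_mem_nhds hx] with z hz
    exact MM_eq hν hz
  refine HasDerivAt.congr_of_eventuallyEq ?_ hloc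
  have hJ := hasDerivAt_besselJ (μ := ν) (by linarith) hx
  have hK := hasDerivAt_besselJ_succ hν hx
  have hx2 := hasDerivAt_pow 2 x
  have hx1 : HasDerivAt (fun x : ℝ => 2 * ν * x) (2 * ν) x := by
    simpa using (hasDerivAt_id x).const_mul (2 * ν)
  have h := ((hx2.mul (hJ.pow 2)).sub ((hx1.mul hJ).mul hK)).add (hx2.mul (hK.pow 2))
  refine h.congr_deriv ?_
  simp only [Pi.mul_apply, Pi.pow_apply]
  field_simp
  push_cast
  ring

theorem G_zero_pos {μ : ℝ} (hμ : -1 < μ) : 0 < G μ 0 := by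
  rw [G_zero]
  exact cf_pos hμ 0

/-- `J_ν > 0` near zero. -/
theorem besselJ_pos_near_zero {μ : ℝ} (hμ : -1 < μ) :
    ∃ δ > 0, ∀ x, 0 < x → x < δ → 0 < besselJ μ x := by
  have hc : ContinuousAt (fun x : ℝ => G μ (x ^ 2 / 4)) 0 := by
    have h1 : ContinuousAt (fun x : ℝ => x ^ 2 / 4) 0 := by fun_prop
    have h2 : ContinuousAt (G μ) ((fun x : ℝ => x ^ 2 / 4) 0) := (hasDerivAt_G hμ _).continuousAt
    exact ContinuousAt.comp (g := G μ) (f := fun x : ℝ => x ^ 2 / 4) h2 h1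
  have hpos : 0 < (fun x : ℝ => G μ (x ^ 2 / 4)) 0 := by
    simp only [ne_eq, OfNat.ofNat_ne_zero, not_false_eq_true, zero_pow, zero_div]
    exact G_zero_pos hμ
  have hev := hc.eventually (lt_mem_nhds hpos)
  rw [Metric.eventually_nhds_iff] at hev
  obtain ⟨δ, hδ, h⟩ := hev
  refine ⟨δ, hδ, ?_⟩
  intro x hx hxδ
  rw [besselJ_eq μ hx]
  apply mul_pos
  · apply Real.rpow_pos_of_pos
    positivity
  · apply h
    rw [dist_zero_right, Real.norm_eq_abs, abs_of_pos hx]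
    exact hxδ

theorem continuousAt_G {μ : ℝ} (hμ : -1 < μ) (y : ℝ) : ContinuousAt (G μ) y :=
  (hasDerivAt_G hμ y).continuousAt

theorem tendsto_MM {ν : ℝ} (hν : 0 < ν) : Tendsto (MM ν) (𝓝[>] 0) (𝓝 0) := by
  have hloc : (fun x => x ^ 2 * (((x / 2) ^ ν) ^ 2 * (G ν (x ^ 2 / 4) ^ 2 -
      ν * G ν (x ^ 2 / 4) * G (ν + 1) (x ^ 2 / 4) + x ^ 2 / 4 * G (ν + 1) (x ^ 2 / 4) ^ 2)))
      =ᶠ[𝓝[>] 0] MM ν := by
    filter_upwards [self_mem_nhdsWithin] with x hx
    have hx' : (0 : ℝ) < x := hx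
    have h2 : 0 < x / 2 := by positivity
    rw [MM_eq hν hx', besselJ_eq _ hx', besselJ_eq _ hx', Real.rpow_add_one h2.ne']
    ring
  refine Tendsto.congr' hloc ?_
  have h1 : -1 < ν := by linarith
  have h2 : -1 < ν + 1 := by linarith
  have hq : Tendsto (fun x : ℝ => x ^ 2 / 4) (𝓝 0) (𝓝 0) := by
    have : ContinuousAt (fun x : ℝ => x ^ 2 / 4) 0 := by fun_prop
    have h := this.tendsto
    simpa using h
  have hG : Tendsto (fun x : ℝ => G ν (x ^ 2 / 4)) (𝓝 0) (𝓝 (G ν 0)) :=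
    (continuousAt_G h1 0).tendsto.comp hq
  have hG1 : Tendsto (fun x : ℝ => G (ν + 1) (x ^ 2 / 4)) (𝓝 0) (𝓝 (G (ν + 1) 0)) :=
    (continuousAt_G h2 0).tendsto.comp hq
  have hr : Tendsto (fun x : ℝ => (x / 2) ^ ν) (𝓝 0) (𝓝 0) := by
    have hc : ContinuousAt (fun x : ℝ => (x / 2) ^ ν) 0 := by
      apply ContinuousAt.rpow_const
      · fun_prop
      · right; exact hν.le
    have h := hc.tendsto
    simpa [Real.zero_rpow hν.ne'] using h
  have hx2 : Tendsto (fun x : ℝ => x ^ 2) (𝓝 0) (𝓝 0) := by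
    have : ContinuousAt (fun x : ℝ => x ^ 2) 0 := by fun_prop
    have h := this.tendsto
    simpa using h
  have h := hx2.mul ((hr.pow 2).mul (((hG.pow 2).sub ((hG.const_mul ν).mul hG1)).add
    (hq.mul (hG1.pow 2))))
  have h' := h.mono_left (nhdsWithin_le_nhds (s := Ioi (0 : ℝ)))
  simpa using h'

theorem MM_pos {ν : ℝ} (hν : 0 < ν) {x : ℝ} (hx : 0 < x) : 0 < MM ν x := by
  obtain ⟨δ, hδ, hJ⟩ := besselJ_pos_near_zero (μ := ν) (by linarith)
  have hmono : MonotoneOn (MM ν) (Ioi 0) := by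
    apply monotoneOn_of_deriv_nonneg (convex_Ioi 0)
    · intro z hz
      exact (hasDerivAt_MM hν hz).continuousAt.continuousWithinAt
    · intro z hz
      rw [interior_Ioi] at hz
      exact (hasDerivAt_MM hν hz).differentiableAt.differentiableWithinAt
    · intro z hz
      rw [interior_Ioi] at hz
      rw [(hasDerivAt_MM hν hz).deriv]
      have : (0 : ℝ) < z := hz
      positivity
  have hstrict : StrictMonoOn (MM ν) (Ioo 0 δ) := by
    apply strictMonoOn_of_deriv_pos (convex_Ioo 0 δ)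
    · intro z hz
      exact (hasDerivAt_MM hν hz.1).continuousAt.continuousWithinAt
    · intro z hz
      rw [interior_Ioo] at hz
      rw [(hasDerivAt_MM hν hz.1).deriv]
      have h1 := hJ z hz.1 hz.2
      have h2 : 0 < z := hz.1
      positivity
  have hnonneg : ∀ z, 0 < z → 0 ≤ MM ν z := by
    intro z hz
    apply le_of_tendsto (tendsto_MM hν)
    have : ∀ᶠ w : ℝ in 𝓝[>] 0, w < z :=
      (eventually_lt_nhds hz).filter_mono nhdsWithin_le_nhds
    filter_upwards [self_mem_nhdsWithin, this] with w hw hwz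
    exact hmono hw (mem_Ioi.2 hz) hwz.le
  set y := min x (δ / 2) with hy
  have hy0 : 0 < y := lt_min hx (by linarith)
  have hyx : y ≤ x := min_le_left _ _
  have hyδ : y < δ := lt_of_le_of_lt (min_le_right _ _) (by linarith)
  have h1 : MM ν (y / 2) < MM ν y :=
    hstrict ⟨by linarith, by linarith⟩ ⟨hy0, hyδ⟩ (by linarith)
  have h2 : 0 ≤ MM ν (y / 2) := hnonneg _ (by linarith)
  have h3 : MM ν y ≤ MM ν x := hmono (mem_Ioi.2 hy0) (mem_Ioi.2 hx) hyx
  linarith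

theorem turanDelta_pos {ν : ℝ} (hν : 0 < ν) {x : ℝ} (hx : 0 < x) : 0 < turanDelta ν x := by
  have h := MM_pos hν hx
  unfold MM at h
  exact (mul_pos_iff_of_pos_left (by positivity)).1 h


/-- `u = x J'/J = ν - x J_{ν+1}/J_ν`. -/
noncomputable def uu (ν x : ℝ) : ℝ := ν - x * besselJ (ν + 1) x / besselJ ν x

theorem turanRatio_pos {ν : ℝ} (hν : 0 < ν) {x : ℝ} (hx : 0 < x) (hJ : besselJ ν x ≠ 0) :
    0 < turanRatio ν x := by
  unfold turanRatio
  have := turanDelta_pos hν hx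
  positivity

theorem turanRatio_eq {ν : ℝ} (hν : 0 < ν) {x : ℝ} (hx : 0 < x) (hJ : besselJ ν x ≠ 0) :
    turanRatio ν x = 1 + (uu ν x ^ 2 - ν ^ 2) / x ^ 2 := by
  unfold turanRatio uu
  rw [turanDelta_eq hν hx]
  field_simp
  ring

theorem hasDerivAt_uu {ν : ℝ} (hν : 0 < ν) {x : ℝ} (hx : 0 < x) (hJ : besselJ ν x ≠ 0) :
    HasDerivAt (uu ν) (-(x * turanRatio ν x)) x := by
  have h1 := hasDerivAt_besselJ (μ := ν) (by linarith) hx
  have h2 := hasDerivAt_besselJ_succ hν hx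
  have h3 := (((hasDerivAt_id x).mul h2).div h1 hJ).const_sub ν
  refine h3.congr_deriv ?_
  unfold turanRatio
  rw [turanDelta_eq hν hx]
  simp only [Pi.mul_apply, id]
  field_simp
  ring

theorem eventually_ne {ν : ℝ} (hν : 0 < ν) {x : ℝ} (hx : 0 < x) (hJ : besselJ ν x ≠ 0) :
    ∀ᶠ z in 𝓝 x, besselJ ν z ≠ 0 :=
  (hasDerivAt_besselJ (μ := ν) (by linarith) hx).continuousAt.eventually_ne hJ

theorem hasDerivAt_turanRatio {ν : ℝ} (hν : 0 < ν) {x : ℝ} (hx : 0 < x)
    (hJ : besselJ ν x ≠ 0) :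
    HasDerivAt (turanRatio ν) (-(2 / x) * ((1 + uu ν x) * turanRatio ν x - 1)) x := by
  have hloc : turanRatio ν =ᶠ[𝓝 x] fun x => 1 + (uu ν x ^ 2 - ν ^ 2) / x ^ 2 := by
    filter_upwards [lt_mem_nhds hx, eventually_ne hν hx hJ] with z hz hz2
    exact turanRatio_eq hν hz hz2
  refine HasDerivAt.congr_of_eventuallyEq ?_ hloc
  have h1 := hasDerivAt_uu hν hx hJ
  have h2 := (((h1.pow 2).sub_const (ν ^ 2)).div (hasDerivAt_pow 2 x) (by positivity)).const_add 1
  refine h2.congr_deriv ?_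
  have h3 := turanRatio_eq hν hx hJ
  simp only [Pi.pow_apply]
  push_cast
  rw [h3]
  field_simp
  ring

/-- the function `x² J² ((1+u)Φ - 1)`. -/
noncomputable def NN (ν x : ℝ) : ℝ :=
  x ^ 2 * besselJ ν x ^ 2 * ((1 + uu ν x) * turanRatio ν x - 1)

theorem hasDerivAt_NN {ν : ℝ} (hν : 0 < ν) {x : ℝ} (hx : 0 < x) (hJ : besselJ ν x ≠ 0) :
    HasDerivAt (NN ν) (-(x ^ 3 * besselJ ν x ^ 2 * turanRatio ν x ^ 2)) x := by
  have h0 := hasDerivAt_besselJ (μ := ν) (by linarith) hx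
  have h1 := hasDerivAt_uu hν hx hJ
  have h2 := hasDerivAt_turanRatio hν hx hJ
  have h3 := ((hasDerivAt_pow 2 x).mul (h0.pow 2)).mul (((h1.const_add 1).mul h2).sub_const 1)
  refine h3.congr_deriv ?_
  have hK : besselJ (ν + 1) x = (ν - uu ν x) * besselJ ν x / x := by
    unfold uu
    field_simp
    ring
  simp only [Pi.mul_apply, Pi.pow_apply]
  rw [hK]
  push_cast
  field_simp
  ring

theorem NN_zero_iff {ν : ℝ} {x : ℝ} (hx : 0 < x) (hJ : besselJ ν x ≠ 0) :
    NN ν x = 0 ↔ (1 + uu ν x) * turanRatio ν x - 1 = 0 := by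
  unfold NN
  constructor
  · intro h
    have h1 : x ^ 2 * besselJ ν x ^ 2 ≠ 0 := by positivity
    exact (mul_eq_zero.1 h).resolve_left h1
  · intro h
    rw [h, mul_zero]

theorem deriv_zero_iff {ν : ℝ} (hν : 0 < ν) {x : ℝ} (hx : 0 < x) (hJ : besselJ ν x ≠ 0) :
    deriv (turanRatio ν) x = 0 ↔ NN ν x = 0 := by
  rw [(hasDerivAt_turanRatio hν hx hJ).deriv, NN_zero_iff hx hJ]
  constructor
  · intro h
    have h1 : -(2 / x) ≠ 0 := by
      have : 0 < 2 / x := by positivity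
      linarith
    exact (mul_eq_zero.1 h).resolve_left h1
  · intro h
    rw [h, mul_zero]

/-- At a zero of `J_ν`, `J_{ν+1}` does not vanish. -/
theorem besselJ_succ_ne {ν : ℝ} (hν : 0 < ν) {a : ℝ} (ha : 0 < a) (hJ : besselJ ν a = 0) :
    besselJ (ν + 1) a ≠ 0 := by
  intro h
  have := MM_pos hν ha
  rw [MM_eq hν ha, hJ, h] at this
  simp at this

theorem blowup {ν : ℝ} (hν : 0 < ν) {a : ℝ} (ha : 0 < a) (hJ : besselJ ν a = 0) (M : ℝ) :
    ∀ᶠ x in 𝓝 a, M * |besselJ ν x| < |x * besselJ (ν + 1) x| := by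
  have h1 : ContinuousAt (besselJ ν) a :=
    (hasDerivAt_besselJ (μ := ν) (by linarith) ha).continuousAt
  have h2 : ContinuousAt (besselJ (ν + 1)) a := (hasDerivAt_besselJ_succ hν ha).continuousAt
  have h3 : ContinuousAt (fun x => M * |besselJ ν x|) a := (continuousAt_const).mul h1.abs
  have h4 : ContinuousAt (fun x => |x * besselJ (ν + 1) x|) a := (continuousAt_id.mul h2).abs
  apply h3.eventually_lt h4
  rw [hJ, abs_zero, mul_zero]
  exact abs_pos.2 (mul_ne_zero ha.ne' (besselJ_succ_ne hν ha hJ))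

/-- The open interval `(a,b)` lies between consecutive positive zeros. -/
structure Gap (ν a b : ℝ) : Prop where
  ha : 0 < a
  hab : a < b
  hJa : besselJ ν a = 0
  hJb : besselJ ν b = 0
  hne : ∀ x ∈ Ioo a b, besselJ ν x ≠ 0

theorem Gap.pos {ν a b : ℝ} (h : Gap ν a b) {x : ℝ} (hx : x ∈ Ioo a b) : 0 < x := h.ha.trans hx.1

theorem Gap.uu_anti {ν a b : ℝ} (hν : 0 < ν) (h : Gap ν a b) : StrictAntiOn (uu ν) (Ioo a b) := by
  apply strictAntiOn_of_deriv_neg (convex_Ioo a b)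
  · intro z hz
    exact (hasDerivAt_uu hν (h.pos hz) (h.hne z hz)).continuousAt.continuousWithinAt
  · intro z hz
    rw [interior_Ioo] at hz
    rw [(hasDerivAt_uu hν (h.pos hz) (h.hne z hz)).deriv]
    have h1 := turanRatio_pos hν (h.pos hz) (h.hne z hz)
    have h2 := h.pos hz
    have : 0 < z * turanRatio ν z := by positivity
    linarith

theorem Gap.NN_anti {ν a b : ℝ} (hν : 0 < ν) (h : Gap ν a b) : StrictAntiOn (NN ν) (Ioo a b) := by
  apply strictAntiOn_of_deriv_neg (convex_Ioo a b)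
  · intro z hz
    exact (hasDerivAt_NN hν (h.pos hz) (h.hne z hz)).continuousAt.continuousWithinAt
  · intro z hz
    rw [interior_Ioo] at hz
    rw [(hasDerivAt_NN hν (h.pos hz) (h.hne z hz)).deriv]
    have h1 := turanRatio_pos hν (h.pos hz) (h.hne z hz)
    have h2 := h.pos hz
    have h3 := h.hne z hz
    have : 0 < z ^ 3 * besselJ ν z ^ 2 * turanRatio ν z ^ 2 := by positivity
    linarith

theorem abs_uu_gt {ν : ℝ} {x M : ℝ} (hJ : besselJ ν x ≠ 0)
    (h : (|ν| + M) * |besselJ ν x| < |x * besselJ (ν + 1) x|) : M < |uu ν x| := by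
  have hpos : 0 < |besselJ ν x| := abs_pos.2 hJ
  have h1 : |ν| + M < |x * besselJ (ν + 1) x / besselJ ν x| := by
    rw [abs_div, lt_div_iff₀ hpos]
    exact h
  unfold uu
  have h2 : |x * besselJ (ν + 1) x / besselJ ν x| ≤
      |ν - x * besselJ (ν + 1) x / besselJ ν x| + |ν| := by
    have := abs_sub_abs_le_abs_sub (x * besselJ (ν + 1) x / besselJ ν x) ν
    rw [abs_sub_comm] at this
    linarith
  linarith

theorem Gap.exists_large {ν a b : ℝ} (hν : 0 < ν) (h : Gap ν a b) {c : ℝ} (hc : c ∈ Ioo a b)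
    (M : ℝ) : ∃ x ∈ Ioo a c, M < uu ν x := by
  have hev := blowup hν h.ha h.hJa (|ν| + (|M| + |uu ν c|))
  rw [Metric.eventually_nhds_iff] at hev
  obtain ⟨δ, hδ, hb⟩ := hev
  set x := a + min (δ / 2) ((c - a) / 2) with hx
  have hca : 0 < c - a := by linarith [hc.1]
  have hm : 0 < min (δ / 2) ((c - a) / 2) := lt_min (by linarith) (by linarith)
  have hm1 : min (δ / 2) ((c - a) / 2) ≤ δ / 2 := min_le_left _ _
  have hm2 : min (δ / 2) ((c - a) / 2) ≤ (c - a) / 2 := min_le_right _ _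
  have hxa : a < x := by rw [hx]; linarith
  have hxc : x < c := by rw [hx]; linarith
  have hxb : x ∈ Ioo a b := ⟨hxa, hxc.trans hc.2⟩
  refine ⟨x, ⟨hxa, hxc⟩, ?_⟩
  have h1 : |ν| + (|M| + |uu ν c|) = |ν| + (|M| + |uu ν c|) := rfl
  have h2 := hb (y := x) (by
    rw [Real.dist_eq, abs_of_pos (by linarith)]
    rw [hx]
    linarith)
  have h3 := abs_uu_gt (h.hne x hxb) h2
  have h4 := h.uu_anti hν hxb hc hxc
  have h5 : 0 < uu ν x := by
    by_contra hcon
    rw [not_lt] at hcon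
    rw [abs_of_nonpos hcon] at h3
    have h6 := neg_abs_le (uu ν c)
    have h7 := abs_nonneg M
    linarith
  rw [abs_of_pos h5] at h3
  have h6 := le_abs_self M
  have h7 := abs_nonneg (uu ν c)
  linarith

theorem Gap.exists_small {ν a b : ℝ} (hν : 0 < ν) (h : Gap ν a b) {c : ℝ} (hc : c ∈ Ioo a b)
    (M : ℝ) : ∃ x ∈ Ioo c b, uu ν x < M := by
  have hb0 : 0 < b := h.ha.trans h.hab
  have hev := blowup hν hb0 h.hJb (|ν| + (|M| + |uu ν c|))
  rw [Metric.eventually_nhds_iff] at hev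
  obtain ⟨δ, hδ, hb⟩ := hev
  set x := b - min (δ / 2) ((b - c) / 2) with hx
  have hca : 0 < b - c := by linarith [hc.2]
  have hm : 0 < min (δ / 2) ((b - c) / 2) := lt_min (by linarith) (by linarith)
  have hm1 : min (δ / 2) ((b - c) / 2) ≤ δ / 2 := min_le_left _ _
  have hm2 : min (δ / 2) ((b - c) / 2) ≤ (b - c) / 2 := min_le_right _ _
  have hxa : x < b := by rw [hx]; linarith
  have hxc : c < x := by rw [hx]; linarith
  have hxb : x ∈ Ioo a b := ⟨hc.1.trans hxc, hxa⟩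
  refine ⟨x, ⟨hxc, hxa⟩, ?_⟩
  have h2 := hb (y := x) (by
    rw [Real.dist_eq, abs_of_neg (by linarith)]
    rw [hx]
    linarith)
  have h3 := abs_uu_gt (h.hne x hxb) h2
  have h4 := h.uu_anti hν hc hxb hxc
  have h5 : uu ν x < 0 := by
    by_contra hcon
    rw [not_lt] at hcon
    rw [abs_of_nonneg hcon] at h3
    have h6 := le_abs_self (uu ν c)
    have h7 := abs_nonneg M
    linarith
  rw [abs_of_neg h5] at h3
  have h6 := neg_abs_le M
  have h7 := abs_nonneg (uu ν c)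
  linarith

/-- Existence, uniqueness and description of the critical point in a gap. -/
theorem Gap.critical {ν a b : ℝ} (hν : 0 < ν) (h : Gap ν a b) :
    ∃ α ∈ Ioo a b, deriv (turanRatio ν) α = 0 ∧
      (∀ x ∈ Ioo a b, deriv (turanRatio ν) x = 0 → x = α) ∧ 0 < uu ν α ∧ uu ν α < ν ∧
      turanRatio ν α = 1 / (1 + uu ν α) ∧
      α ^ 2 = (ν ^ 2 - uu ν α ^ 2) * (1 + uu ν α) / uu ν α := by
  have hc : (a + b) / 2 ∈ Ioo a b := ⟨by linarith [h.hab], by linarith [h.hab]⟩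
  obtain ⟨x1, hx1, hu1⟩ := h.exists_large hν hc ν
  obtain ⟨x2, hx2, hu2⟩ := h.exists_small hν hc 0
  have hx1' : x1 ∈ Ioo a b := ⟨hx1.1, hx1.2.trans hc.2⟩
  have hx2' : x2 ∈ Ioo a b := ⟨hc.1.trans hx2.1, hx2.2⟩
  have hx12 : x1 < x2 := hx1.2.trans hx2.1
  have hsub : Icc x1 x2 ⊆ Ioo a b := fun z hz =>
    ⟨lt_of_lt_of_le hx1'.1 hz.1, lt_of_le_of_lt hz.2 hx2'.2⟩
  have hcu : ContinuousOn (uu ν) (Icc x1 x2) := fun z hz =>
    (hasDerivAt_uu hν (h.pos (hsub hz)) (h.hne z (hsub hz))).continuousAt.continuousWithinAt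
  obtain ⟨x0, hx0, hu0⟩ := intermediate_value_Ioo' hx12.le hcu
    (show (0 : ℝ) ∈ Ioo (uu ν x2) (uu ν x1) from ⟨hu2, by linarith⟩)
  have hx0' : x0 ∈ Ioo a b := hsub ⟨hx0.1.le, hx0.2.le⟩
  have hsub2 : Icc x1 x0 ⊆ Ioo a b := fun z hz =>
    ⟨lt_of_lt_of_le hx1'.1 hz.1, lt_of_le_of_lt hz.2 hx0'.2⟩
  have hcN : ContinuousOn (NN ν) (Icc x1 x0) := fun z hz =>
    (hasDerivAt_NN hν (h.pos (hsub2 hz)) (h.hne z (hsub2 hz))).continuousAt.continuousWithinAt
  have hN1 : 0 < NN ν x1 := by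
    unfold NN
    have hp := h.pos hx1'
    have hJ := h.hne x1 hx1'
    apply mul_pos (by positivity)
    have hR : 1 ≤ turanRatio ν x1 := by
      rw [turanRatio_eq hν hp hJ]
      have : 0 ≤ (uu ν x1 ^ 2 - ν ^ 2) / x1 ^ 2 := by
        apply div_nonneg _ (by positivity)
        nlinarith
      linarith
    nlinarith
  have hN0 : NN ν x0 < 0 := by
    unfold NN
    have hp := h.pos hx0'
    have hJ := h.hne x0 hx0'
    rw [turanRatio_eq hν hp hJ, hu0]
    have : (1 + (0 : ℝ)) * (1 + (0 ^ 2 - ν ^ 2) / x0 ^ 2) - 1 = -(ν ^ 2 / x0 ^ 2) := by ring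
    rw [this]
    have h1 : 0 < x0 ^ 2 * besselJ ν x0 ^ 2 := by positivity
    have h2 : 0 < ν ^ 2 / x0 ^ 2 := by positivity
    nlinarith
  obtain ⟨α, hα, hNα⟩ := intermediate_value_Ioo' hx0.1.le hcN
    (show (0 : ℝ) ∈ Ioo (NN ν x0) (NN ν x1) from ⟨hN0, hN1⟩)
  have hα' : α ∈ Ioo a b := hsub2 ⟨hα.1.le, hα.2.le⟩
  have hαp := h.pos hα'
  have hαJ := h.hne α hα'
  have hupos : 0 < uu ν α := by
    have := h.uu_anti hν hα' hx0' hα.2
    rw [hu0] at this
    exact this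
  have hg := (NN_zero_iff hαp hαJ).1 hNα
  have hR : turanRatio ν α = 1 / (1 + uu ν α) := by
    have : (1 + uu ν α) ≠ 0 := by linarith
    field_simp
    linarith
  have hsq : α ^ 2 = (ν ^ 2 - uu ν α ^ 2) * (1 + uu ν α) / uu ν α := by
    have h1 := turanRatio_eq hν hαp hαJ
    rw [hR] at h1
    have h2 : (1 + uu ν α) ≠ 0 := by linarith
    field_simp at h1 ⊢
    linarith
  refine ⟨α, hα', (deriv_zero_iff hν hαp hαJ).2 hNα, ?_, hupos, ?_, hR, hsq⟩
  · intro x hx hd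
    have hN := (deriv_zero_iff hν (h.pos hx) (h.hne x hx)).1 hd
    exact (h.NN_anti hν).injOn hx hα' (by rw [hN, hNα])
  · by_contra hcon
    rw [not_lt] at hcon
    have h1 : 0 < α ^ 2 := by positivity
    rw [hsq] at h1
    have h2 : (ν ^ 2 - uu ν α ^ 2) * (1 + uu ν α) / uu ν α ≤ 0 := by
      apply div_nonpos_of_nonpos_of_nonneg _ hupos.le
      apply mul_nonpos_of_nonpos_of_nonneg _ (by linarith)
      nlinarith
    linarith

/-- Comparison of two critical values. -/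
theorem critical_compare {ν s t α α' : ℝ} (hs : 0 < s) (ht : 0 < t)
    (hα : 0 < α) (hαα' : α < α') (h1 : α ^ 2 = (ν ^ 2 - s ^ 2) * (1 + s) / s)
    (h2 : α' ^ 2 = (ν ^ 2 - t ^ 2) * (1 + t) / t) : t < s := by
  by_contra hcon
  rw [not_lt] at hcon
  have h3 : α ^ 2 < α' ^ 2 := by nlinarith
  have e1 : (ν ^ 2 - s ^ 2) * (1 + s) / s = ν ^ 2 / s + ν ^ 2 - s - s ^ 2 := by
    field_simp; ring
  have e2 : (ν ^ 2 - t ^ 2) * (1 + t) / t = ν ^ 2 / t + ν ^ 2 - t - t ^ 2 := by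
    field_simp; ring
  rw [h1, h2, e1, e2] at h3
  have h4 : ν ^ 2 / t ≤ ν ^ 2 / s := div_le_div_of_nonneg_left (by positivity) hs hcon
  nlinarith

end Pool.Agent.Lib.MP_f30c32_an
end

section

set_option autoImplicit false

open Filter Topology Set
open scoped Nat

namespace Pool.Agent.Lib.MP_f30c32_an

/-- Oscillation: there are arbitrarily large zeros. -/
theorem exists_zero_gt {ν : ℝ} (hν : 0 < ν) (y : ℝ) : ∃ z, y < z ∧ 0 < z ∧ besselJ ν z = 0 := by
  by_contra hcon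
  push Not at hcon
  set X : ℝ := max (max (y + 1) (2 * ν)) 2 with hX
  have hXy : y + 1 ≤ X := (le_max_left _ _).trans (le_max_left _ _)
  have hXν : 2 * ν ≤ X := (le_max_right _ _).trans (le_max_left _ _)
  have hX2 : 2 ≤ X := le_max_right _ _
  have hJ : ∀ x, X ≤ x → besselJ ν x ≠ 0 := fun x hx => hcon x (by linarith) (by linarith)
  set θ : ℝ → ℝ := fun x => Real.arctan (uu ν x / x) with hθ
  have hderiv : ∀ x, X ≤ x → ∃ d, HasDerivAt θ d x ∧ d ≤ -(1 / 2) := by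
    intro x hx
    have hx0 : 0 < x := by linarith
    have h1 := hasDerivAt_uu hν hx0 (hJ x hx)
    have h2 := (h1.div (hasDerivAt_id x) hx0.ne').arctan
    refine ⟨_, h2, ?_⟩
    have hR := turanRatio_eq hν hx0 (hJ x hx)
    set w : ℝ := uu ν x / x with hw
    have hu : uu ν x = w * x := by rw [hw]; field_simp
    have e1 : (-(x * turanRatio ν x) * x - uu ν x * 1) / x ^ 2 =
        -(1 + w ^ 2) + (ν ^ 2 / x ^ 2 - w / x) := by
      rw [hR, hu]
      field_simp
      ring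
    simp only [Pi.div_apply, id]
    rw [← hw, e1]
    have hden : 0 < 1 + w ^ 2 := by positivity
    have e2 : 1 / (1 + w ^ 2) * (-(1 + w ^ 2) + (ν ^ 2 / x ^ 2 - w / x)) =
        -1 + (ν ^ 2 / x ^ 2 - w / x) / (1 + w ^ 2) := by
      field_simp
    rw [e2]
    have h3 : (ν ^ 2 / x ^ 2 - w / x) ≤ 1 / 2 * (1 + w ^ 2) := by
      have h4 : ν ^ 2 / x ^ 2 ≤ 1 / 4 := by
        rw [div_le_div_iff₀ (by positivity) (by norm_num)]
        nlinarith
      have h5 : -(w / x) ≤ 1 / 4 * (1 + w ^ 2) := by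
        have h6 : -(w / x) ≤ |w| / x := by
          have : -(w / x) = (-w) / x := by ring
          rw [this]
          exact div_le_div_of_nonneg_right (neg_le_abs w) hx0.le
        have h7 : |w| / x ≤ |w| / 2 :=
          div_le_div_of_nonneg_left (abs_nonneg w) (by norm_num) (by linarith)
        have h8 : 0 ≤ (|w| - 1) ^ 2 := sq_nonneg _
        have h9 : |w| ^ 2 = w ^ 2 := sq_abs w
        nlinarith
      have h10 : 0 ≤ w ^ 2 := sq_nonneg w
      linarith
    have h6 : (ν ^ 2 / x ^ 2 - w / x) / (1 + w ^ 2) ≤ 1 / 2 := by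
      rw [div_le_iff₀ hden]
      exact h3
    linarith
  have hle : θ (X + 7) - θ X ≤ -(1 / 2) * ((X + 7) - X) := by
    apply Convex.image_sub_le_mul_sub_of_deriv_le (convex_Icc X (X + 7))
    · intro x hx
      obtain ⟨d, hd, _⟩ := hderiv x hx.1
      exact hd.continuousAt.continuousWithinAt
    · intro x hx
      rw [interior_Icc] at hx
      obtain ⟨d, hd, _⟩ := hderiv x hx.1.le
      exact hd.differentiableAt.differentiableWithinAt
    · intro x hx
      rw [interior_Icc] at hx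
      obtain ⟨d, hd, hd2⟩ := hderiv x hx.1.le
      rw [hd.deriv]
      exact hd2
    · exact ⟨le_rfl, by linarith⟩
    · exact ⟨by linarith, le_rfl⟩
    · linarith
  have h1 : -(Real.pi / 2) < θ (X + 7) := Real.neg_pi_div_two_lt_arctan _
  have h2 : θ X < Real.pi / 2 := Real.arctan_lt_pi_div_two _
  have h3 := Real.pi_lt_d2
  linarith

/-- No zeros immediately to the right of a nonnegative point. -/
theorem no_zero_right {ν : ℝ} (hν : 0 < ν) {y : ℝ} (hy : 0 ≤ y) :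
    ∃ δ > 0, ∀ x, y < x → x < y + δ → besselJ ν x ≠ 0 := by
  rcases hy.eq_or_lt with h | h
  · obtain ⟨δ, hδ, hb⟩ := besselJ_pos_near_zero (μ := ν) (by linarith)
    refine ⟨δ, hδ, ?_⟩
    intro x hx hx2
    rw [← h] at hx hx2
    exact (hb x hx (by linarith)).ne'
  · have hev : ∀ᶠ z in 𝓝[≠] y, besselJ ν z ≠ 0 := by
      by_cases hJ : besselJ ν y = 0
      · have hd := hasDerivAt_besselJ (μ := ν) (by linarith) h
        apply hd.eventually_ne
        rw [hJ, mul_zero, zero_sub]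
        exact neg_ne_zero.2 (besselJ_succ_ne hν h hJ)
      · exact (eventually_ne hν h hJ).filter_mono nhdsWithin_le_nhds
    rw [eventually_nhdsWithin_iff, Metric.eventually_nhds_iff] at hev
    obtain ⟨δ, hδ, hb⟩ := hev
    refine ⟨δ, hδ, ?_⟩
    intro x hx hx2
    apply hb
    · rw [Real.dist_eq, abs_of_pos (by linarith)]
      linarith
    · simp only [mem_compl_iff, mem_singleton_iff]
      exact hx.ne'

/-- The next zero after `y`. -/
noncomputable def nextZero (ν y : ℝ) : ℝ := sInf {z | y < z ∧ besselJ ν z = 0}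

theorem nextZero_spec {ν : ℝ} (hν : 0 < ν) {y : ℝ} (hy : 0 ≤ y) :
    y < nextZero ν y ∧ besselJ ν (nextZero ν y) = 0 ∧
      ∀ x, y < x → x < nextZero ν y → besselJ ν x ≠ 0 := by
  obtain ⟨δ, hδ, hno⟩ := no_zero_right hν hy
  set S : Set ℝ := {z | y < z ∧ besselJ ν z = 0} with hS
  have hne : S.Nonempty := by
    obtain ⟨z, hz, _, hJ⟩ := exists_zero_gt hν y
    exact ⟨z, hz, hJ⟩
  have hbdd : BddBelow S := ⟨y, fun z hz => hz.1.le⟩
  have hge : y + δ ≤ nextZero ν y := by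
    apply le_csInf hne
    intro z hz
    by_contra hcon
    rw [not_le] at hcon
    exact hno z hz.1 hcon hz.2
  have hy1 : y < nextZero ν y := by linarith
  have hpos : 0 < nextZero ν y := by linarith
  have hmin : ∀ x, y < x → x < nextZero ν y → besselJ ν x ≠ 0 := by
    intro x hx hx2 hJ
    have : nextZero ν y ≤ x := csInf_le hbdd ⟨hx, hJ⟩
    linarith
  refine ⟨hy1, ?_, hmin⟩
  by_contra hJ
  have hev := eventually_ne hν hpos hJ
  rw [Metric.eventually_nhds_iff] at hev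
  obtain ⟨ε, hε, hb⟩ := hev
  obtain ⟨z, hz, hz2⟩ := exists_lt_of_csInf_lt hne (show sInf S < nextZero ν y + ε by
    change nextZero ν y < nextZero ν y + ε
    linarith)
  have hz3 : nextZero ν y ≤ z := csInf_le hbdd hz
  apply hb (y := z) _ hz.2
  rw [Real.dist_eq, abs_of_nonneg (by linarith)]
  linarith

/-- The enumeration `0 = j_0 < j_1 < j_2 < ...` of zero and the positive zeros. -/
noncomputable def jz (ν : ℝ) : ℕ → ℝ
  | 0 => 0
  | (n + 1) => nextZero ν (jz ν n)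

theorem jz_nonneg {ν : ℝ} (hν : 0 < ν) : ∀ n, 0 ≤ jz ν n
  | 0 => le_rfl
  | (n + 1) => by
    have h := jz_nonneg hν n
    have := (nextZero_spec hν h).1
    change 0 ≤ nextZero ν (jz ν n)
    linarith

theorem jz_lt_succ {ν : ℝ} (hν : 0 < ν) (n : ℕ) : jz ν n < jz ν (n + 1) :=
  (nextZero_spec hν (jz_nonneg hν n)).1

theorem jz_strictMono {ν : ℝ} (hν : 0 < ν) : StrictMono (jz ν) :=
  strictMono_nat_of_lt_succ (jz_lt_succ hν)

theorem jz_zero_of_pos {ν : ℝ} (hν : 0 < ν) {n : ℕ} (hn : 1 ≤ n) : besselJ ν (jz ν n) = 0 := by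
  obtain ⟨m, rfl⟩ : ∃ m, n = m + 1 := ⟨n - 1, by omega⟩
  exact (nextZero_spec hν (jz_nonneg hν m)).2.1

theorem jz_pos {ν : ℝ} (hν : 0 < ν) {n : ℕ} (hn : 1 ≤ n) : 0 < jz ν n := by
  have := jz_strictMono hν (show 0 < n by omega)
  exact this

theorem jz_range {ν : ℝ} (hν : 0 < ν) {x : ℝ} (hx : 0 < x) :
    besselJ ν x = 0 ↔ ∃ k, 1 ≤ k ∧ jz ν k = x := by
  constructor
  · intro hJ
    by_contra hcon
    push Not at hcon
    have hlt : ∀ n, jz ν n < x := by
      intro n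
      induction n with
      | zero => exact hx
      | succ n ih =>
        rcases lt_trichotomy (jz ν (n + 1)) x with h | h | h
        · exact h
        · exact absurd h (hcon (n + 1) (by omega))
        · exact absurd hJ ((nextZero_spec hν (jz_nonneg hν n)).2.2 x ih h)
    have hmono := (jz_strictMono hν).monotone
    have hbdd : BddAbove (range (jz ν)) := ⟨x, by rintro _ ⟨n, rfl⟩; exact (hlt n).le⟩
    have hlim := tendsto_atTop_ciSup hmono hbdd
    set l := ⨆ n, jz ν n with hl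
    have hl1 : ∀ n, jz ν n < l := fun n =>
      lt_of_lt_of_le (jz_lt_succ hν n) (le_ciSup hbdd (n + 1))
    have hlpos : 0 < l := lt_of_le_of_lt (jz_nonneg hν 0) (hl1 0)
    have hcont := (hasDerivAt_besselJ (μ := ν) (by linarith) hlpos).continuousAt
    have hJl : besselJ ν l = 0 := by
      have h1 : Tendsto (fun n => besselJ ν (jz ν n)) atTop (𝓝 (besselJ ν l)) :=
        hcont.tendsto.comp hlim
      have h2 : Tendsto (fun n => besselJ ν (jz ν n)) atTop (𝓝 0) := by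
        apply tendsto_const_nhds.congr'
        filter_upwards [eventually_ge_atTop 1] with n hn
        exact (jz_zero_of_pos hν hn).symm
      exact tendsto_nhds_unique h1 h2
    have hev : ∀ᶠ z in 𝓝[≠] l, besselJ ν z ≠ 0 := by
      have hd := hasDerivAt_besselJ (μ := ν) (by linarith) hlpos
      apply hd.eventually_ne
      rw [hJl, mul_zero, zero_sub]
      exact neg_ne_zero.2 (besselJ_succ_ne hν hlpos hJl)
    have hlim' : Tendsto (jz ν) atTop (𝓝[≠] l) := by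
      apply tendsto_nhdsWithin_of_tendsto_nhds_of_eventually_within _ hlim
      exact Eventually.of_forall (fun n => (hl1 n).ne)
    have h3 := hlim'.eventually hev
    obtain ⟨n, hn1, hn2⟩ := (h3.and (eventually_ge_atTop 1)).exists
    exact hn1 (jz_zero_of_pos hν hn2)
  · rintro ⟨k, hk, rfl⟩
    exact jz_zero_of_pos hν hk

theorem jz_gap {ν : ℝ} (hν : 0 < ν) {n : ℕ} (hn : 1 ≤ n) : Gap ν (jz ν n) (jz ν (n + 1)) where
  ha := jz_pos hν hn
  hab := jz_lt_succ hν n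
  hJa := jz_zero_of_pos hν hn
  hJb := jz_zero_of_pos hν (by omega)
  hne := fun x hx => (nextZero_spec hν (jz_nonneg hν n)).2.2 x hx.1 hx.2

end Pool.Agent.Lib.MP_f30c32_an
end
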